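import Pool.Graph.R_seed8.H206R2.Rot.Main

/-!
# Metrics of cohomogeneity one on `S² × S¹`
-/

open Real Set
open scoped ContDiff

namespace H804SC

open Pool.Agent.H206R2

/-- `f` is a positive smooth function of period `L`; then `dr² + f(r)² g_{S²}` is a smooth metric on
`S² × (ℝ / L ℤ)` invariant under `SO(3)`. -/
structure IsWarp (L : ℝ) (f : ℝ → ℝ) : Prop where
  pos : 0 < L
  smooth : ContDiff ℝ ∞ f
  per : ∀ r, f (r + L) = f r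
  fpos : ∀ r, 0 < f r

/-- `γ` is a geodesic of speed `v` of the metric `dr² + f(r)² g_{S²}` on `S² × (ℝ / L ℤ)`; the point
`(u, r)` is written as `(u, exp (2 π i r / L)) ∈ ℝ³ × ℂ`. -/
def IsGeodesicW (L : ℝ) (f : ℝ → ℝ) (v : ℝ) (γ : ℝ → EuclideanSpace ℝ (Fin 3) × ℂ) : Prop :=
  ∃ (r : ℝ → ℝ) (u : ℝ → EuclideanSpace ℝ (Fin 3)), ContDiff ℝ 2 r ∧ ContDiff ℝ 2 u ∧
    (∀ t, ‖u t‖ = 1) ∧ (∀ t, γ t = (u t, Complex.exp ((2 * π * r t / L : ℝ) * Complex.I))) ∧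
    (∀ t, deriv (deriv r) t = f (r t) * deriv f (r t) * ‖deriv u t‖ ^ 2) ∧
    (∀ t, f (r t) • deriv (deriv u) t + (2 * deriv f (r t) * deriv r t) • deriv u t
      + (f (r t) * ‖deriv u t‖ ^ 2) • u t = 0) ∧
    (∀ t, deriv r t ^ 2 + f (r t) ^ 2 * ‖deriv u t‖ ^ 2 = v ^ 2)

/-- `dr² + f(r)² dθ² + h(r)² dφ²`, `0 ≤ r ≤ L`, is a smooth metric on `S² × (ℝ / 2 π ℤ)`: `dr² + f² dθ²` is
a smooth metric on `S²`, and `h` is a positive smooth function on it. -/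
structure IsDiag (L : ℝ) (f h : ℝ → ℝ) : Prop where
  pf : Rot.IsProfile L f
  smooth : ContDiff ℝ ∞ h
  even_zero : ∀ r, h (-r) = h r
  even_L : ∀ r, h (L + r) = h (L - r)
  hpos : ∀ r, 0 < h r

/-- `γ` is a geodesic of speed `v` of the metric `dr² + f(r)² dθ² + h(r)² dφ²` on `S² × (ℝ / 2 π ℤ)`; the
point with polar coordinates `(r, u)` on `S²` and the angle `φ` is written as
`(polar L r u, exp (i φ)) ∈ (ℝ² × ℝ) × ℂ`. -/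
def IsGeodesicD (L : ℝ) (f h : ℝ → ℝ) (v : ℝ) (γ : ℝ → (EuclideanSpace ℝ (Fin 2) × ℝ) × ℂ) : Prop :=
  ∃ (r : ℝ → ℝ) (u : ℝ → EuclideanSpace ℝ (Fin 2)) (φ : ℝ → ℝ), ContDiff ℝ 2 r ∧ ContDiff ℝ 2 u ∧
    ContDiff ℝ 2 φ ∧ (∀ t, ‖u t‖ = 1) ∧
    (∀ t, γ t = (Rot.polar L (r t) (u t), Complex.exp ((φ t : ℝ) * Complex.I))) ∧
    (∀ t, deriv (deriv r) t = f (r t) * deriv f (r t) * ‖deriv u t‖ ^ 2
      + h (r t) * deriv h (r t) * deriv φ t ^ 2) ∧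
    (∀ t, f (r t) • deriv (deriv u) t + (2 * deriv f (r t) * deriv r t) • deriv u t
      + (f (r t) * ‖deriv u t‖ ^ 2) • u t = 0) ∧
    (∀ t, h (r t) * deriv (deriv φ) t + 2 * deriv h (r t) * deriv r t * deriv φ t = 0) ∧
    (∀ t, deriv r t ^ 2 + f (r t) ^ 2 * ‖deriv u t‖ ^ 2 + h (r t) ^ 2 * deriv φ t ^ 2 = v ^ 2)

end H804SC
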