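import Pool.Agent.H804.SC.Main

/-!
# Optimality of the bounds on `S² × S¹`
-/

open Real Set MeasureTheory Filter Topology
open scoped ContDiff

namespace H804SC

open Pool.Agent.H206R2

theorem warp_one : IsWarp (2 * π) (fun _ => 1) :=
  ⟨by positivity, contDiff_const, fun _ => rfl, fun _ => one_pos⟩

theorem diag_one : IsDiag π Real.sin (fun _ => 1) := by
  refine ⟨⟨Real.pi_pos, Real.contDiff_sin, Real.sin_neg, fun r => ?_, fun r h0 h1 =>
    Real.sin_pos_of_pos_of_lt_pi h0 h1, ?_, ?_⟩, contDiff_const, fun _ => rfl, fun _ => rfl,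
    fun _ => one_pos⟩
  · rw [Real.sin_pi_sub, add_comm, Real.sin_add_pi]
  · rw [Real.deriv_sin, Real.cos_zero]
  · rw [Real.deriv_sin, Real.cos_pi]

/-- A circle coordinate with constant nonzero speed `≤ 1` has periods at least `2 π`. -/
theorem per_exp {φ : ℝ → ℝ} {α T : ℝ} (hφ : ∀ t, HasDerivAt φ α t) (hα : α ≠ 0)
    (hα1 : α ^ 2 ≤ 1) (hT : 0 < T)
    (h : Complex.exp ((φ (0 + T) : ℝ) * Complex.I) = Complex.exp ((φ 0 : ℝ) * Complex.I)) :
    2 * π ≤ T := by
  have hlin : φ (0 + T) = φ 0 + α * T := by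
    have h1 : ∀ t, HasDerivAt (fun t => φ t - α * t) 0 t := by
      intro t
      refine ((hφ t).sub ((hasDerivAt_id t).const_mul α)).congr_deriv ?_
      ring
    have h2 := is_const_of_deriv_eq_zero (fun t => (h1 t).differentiableAt)
      (fun t => (h1 t).deriv) (0 + T) 0
    linarith
  rw [Complex.exp_eq_exp_iff_exists_int] at h
  obtain ⟨n, hn⟩ := h
  have h3 : ((φ (0 + T) : ℝ) : ℂ) = (φ 0 : ℝ) + n * (2 * π) := by
    have : ((φ (0 + T) : ℝ) : ℂ) * Complex.I = ((φ 0 : ℝ) + n * (2 * π)) * Complex.I := by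
      rw [hn]
      ring
    exact mul_right_cancel₀ Complex.I_ne_zero this
  have h4 : φ (0 + T) = φ 0 + n * (2 * π) := by exact_mod_cast h3
  have h5 : α * T = n * (2 * π) := by linarith
  have hn0 : n ≠ 0 := by
    intro h0
    rw [h0, Int.cast_zero, zero_mul] at h5
    rcases mul_eq_zero.1 h5 with h6 | h6
    · exact hα h6
    · exact hT.ne' h6
  have h6 : (1 : ℝ) ≤ |(n : ℝ)| := by
    exact_mod_cast Int.one_le_abs hn0
  have h7 : |α| ≤ 1 := by
    rw [← sq_abs] at hα1
    nlinarith [abs_nonneg α]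
  have h8 : |α| * T = |(n : ℝ)| * (2 * π) := by
    have := congrArg abs h5
    rwa [abs_mul, abs_mul, abs_of_pos hT, abs_of_pos (by positivity : (0 : ℝ) < 2 * π)] at this
  nlinarith [Real.pi_pos]

theorem low_W (γ : ℝ → EuclideanSpace ℝ (Fin 3) × ℂ) (T : ℝ) (hT : 0 < T)
    (hγ : IsGeodesicW (2 * π) (fun _ => 1) 1 γ) (hper : ∀ t, γ (t + T) = γ t) : 2 * π ≤ T := by
  obtain ⟨r, u, hr, hu, hn, hγe, e1, e2, e3⟩ := hγ
  have hpi := Real.pi_pos
  simp only [deriv_const, mul_zero, zero_mul, zero_smul, add_zero, one_smul, one_mul, one_pow]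
    at e1 e2 e3
  have hrd : ContDiff ℝ 1 (deriv r) := (contDiff_succ_iff_deriv.1 (by exact_mod_cast hr)).2.2
  have hud : ContDiff ℝ 1 (deriv u) := (contDiff_succ_iff_deriv.1 (by exact_mod_cast hu)).2.2
  have hdc : ∀ t s, deriv r t = deriv r s := is_const_of_deriv_eq_zero
      (fun t => (hrd.differentiable (by norm_num)).differentiableAt) e1
  have hr1 : ∀ t, HasDerivAt r (deriv r 0) t := fun t => by
    rw [hdc 0 t]
    exact (hr.differentiable (by norm_num)).differentiableAt.hasDerivAt
  by_cases hα : deriv r 0 = 0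
  · by_contra hlt
    push Not at hlt
    have hnu : ∀ t, ‖deriv u t‖ ^ 2 = 1 := by
      intro t
      have := e3 t
      rw [hdc t 0, hα] at this
      linarith
    have h1 : ∀ t, HasDerivAt u (deriv u t) t := fun t =>
      (hu.differentiable (by norm_num)).differentiableAt.hasDerivAt
    have h2 : ∀ t, HasDerivAt (deriv u) (-((1 : ℝ) ^ 2) • u t) t := by
      intro t
      have h3 := (hud.differentiable (by norm_num)).differentiableAt (x := t) |>.hasDerivAt
      refine h3.congr_deriv ?_
      have h4 := e2 t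
      rw [hnu, one_smul] at h4
      rw [one_pow, neg_smul, one_smul]
      exact eq_neg_of_add_eq_zero_left h4
    have hup : ∀ t, u (t + T) = u t := by
      intro t
      have := hper t
      rw [hγe, hγe] at this
      exact (Prod.ext_iff.1 this).1
    have h0 := H804OP.Low.per (om := 1) one_pos hT (by linarith) h1 h2 hup 0
    have := hn 0
    rw [h0, norm_zero] at this
    norm_num at this
  · have h3 := hper 0
    rw [hγe, hγe] at h3
    have h4 := (Prod.ext_iff.1 h3).2
    simp only at h4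
    have h5 : ∀ x : ℝ, 2 * π * x / (2 * π) = x := fun x => by field_simp
    rw [h5, h5] at h4
    refine per_exp hr1 hα ?_ hT h4
    have := e3 0
    nlinarith [sq_nonneg ‖deriv u 0‖]

theorem low_D (γ : ℝ → (EuclideanSpace ℝ (Fin 2) × ℝ) × ℂ) (T : ℝ) (hT : 0 < T)
    (hγ : IsGeodesicD π Real.sin (fun _ => 1) 1 γ) (hper : ∀ t, γ (t + T) = γ t) :
    2 * π ≤ T := by
  obtain ⟨r, u, φ, hr, hu, hφ, hn, hγe, e1, e2, e3, e4⟩ := hγ
  have hpi := Real.pi_pos
  simp only [deriv_const, mul_zero, zero_mul, add_zero, one_mul, one_pow, Real.deriv_sin]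
    at e1 e2 e3 e4
  have hφd : ContDiff ℝ 1 (deriv φ) := (contDiff_succ_iff_deriv.1 (by exact_mod_cast hφ)).2.2
  have hdc : ∀ t s, deriv φ t = deriv φ s := is_const_of_deriv_eq_zero
      (fun t => (hφd.differentiable (by norm_num)).differentiableAt) e3
  have hφ1 : ∀ t, HasDerivAt φ (deriv φ 0) t := fun t => by
    rw [hdc 0 t]
    exact (hφ.differentiable (by norm_num)).differentiableAt.hasDerivAt
  have hpt : ∀ t, Rot.polar π (r (t + T)) (u (t + T)) = Rot.polar π (r t) (u t) ∧
      Complex.exp ((φ (t + T) : ℝ) * Complex.I) = Complex.exp ((φ t : ℝ) * Complex.I) := by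
    intro t
    have := hper t
    rw [hγe, hγe] at this
    exact ⟨(Prod.ext_iff.1 this).1, (Prod.ext_iff.1 this).2⟩
  by_cases hα : deriv φ 0 = 0
  · have hx : ∀ x : ℝ, π * x / π = x := fun x => by field_simp
    have := H804US.Low.sphere_low (v := 1) (N := fun t => ‖deriv u t‖ ^ 2) one_pos hT hr hu
      (fun t h0 => by
        have := hn t
        rw [h0, norm_zero] at this
        norm_num at this) e1 (fun t => by
        have h1 := e2 t
        have h2 : (Real.sin (r t) ^ 2) • (deriv (deriv u) t + (‖deriv u t‖ ^ 2) • u t) +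
            (2 * Real.sin (r t) * Real.cos (r t) * deriv r t) • deriv u t =
            Real.sin (r t) • (Real.sin (r t) • deriv (deriv u) t +
              (2 * Real.cos (r t) * deriv r t) • deriv u t
              + (Real.sin (r t) * ‖deriv u t‖ ^ 2) • u t) := by module
        rw [h2, h1, smul_zero]) (fun t => by
        have h1 := e4 t
        rw [hdc t 0, hα] at h1
        linarith) (fun t => by
        have h1 := (Prod.ext_iff.1 (hpt t).1).1
        simp only [Rot.polar, hx] at h1
        exact h1) (fun t => by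
        have h1 := (Prod.ext_iff.1 (hpt t).1).2
        simp only [Rot.polar, hx] at h1
        exact h1)
    linarith
  · refine per_exp hφ1 hα ?_ hT (hpt 0).2
    have := e4 0
    nlinarith [sq_nonneg (deriv r 0), mul_nonneg (sq_nonneg (Real.sin (r 0))) (sq_nonneg ‖deriv u 0‖)]

end H804SC
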