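import Pool.Agent.H804.SC.Defs
import Pool.Agent.H804.US.Low

/-!
# Short closed geodesics on `S² × S¹`
-/

open Real Set MeasureTheory Filter Topology
open scoped ContDiff

namespace H804SC

open Pool.Agent.H206R2

theorem e0norm {n : ℕ} (i : Fin n) : ‖(EuclideanSpace.single i (1 : ℝ))‖ = 1 := by simp

/-- The circle `t ↦ cos (t/m) e₁ + sin (t/m) e₂`. -/
theorem circ {E : Type*} [NormedAddCommGroup E] [InnerProductSpace ℝ E] {e₁ e₂ : E}
    (h1 : ‖e₁‖ = 1) (h2 : ‖e₂‖ = 1) (h12 : inner ℝ e₁ e₂ = 0) {m : ℝ} (hm : 0 < m) :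
    let u := fun t : ℝ => Real.cos (t / m) • e₁ + Real.sin (t / m) • e₂
    ContDiff ℝ 2 u ∧ (∀ t, ‖u t‖ = 1) ∧ (∀ t, ‖deriv u t‖ ^ 2 = 1 / m ^ 2) ∧
      (∀ t, deriv (deriv u) t = -(1 / m ^ 2) • u t) ∧ ∀ t, u (t + 2 * π * m) = u t := by
  intro u
  have hd : ∀ t : ℝ, HasDerivAt (fun t : ℝ => t / m) (1 / m) t := fun t =>
    (hasDerivAt_id t).div_const m
  have hu1 : ∀ t, HasDerivAt u ((1 / m) • (-Real.sin (t / m) • e₁ + Real.cos (t / m) • e₂)) t := by
    intro t
    refine ((hd t).cos.smul_const e₁ |>.add ((hd t).sin.smul_const e₂)).congr_deriv ?_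
    module
  have hdu : deriv u = fun t => (1 / m) • (-Real.sin (t / m) • e₁ + Real.cos (t / m) • e₂) :=
    funext fun t => (hu1 t).deriv
  have hu2 : ∀ t, HasDerivAt (deriv u) (-(1 / m ^ 2) • u t) t := by
    intro t
    rw [hdu]
    have h3 := ((((hd t).sin).neg.smul_const e₁).add ((hd t).cos.smul_const e₂)).const_smul (1 / m)
    refine h3.congr_deriv ?_
    simp only [u]
    have : (1 : ℝ) / m ^ 2 = 1 / m * (1 / m) := by field_simp
    rw [this]
    module
  have nsq : ∀ a b : ℝ, ‖a • e₁ + b • e₂‖ ^ 2 = a ^ 2 + b ^ 2 := by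
    intro a b
    rw [norm_add_sq_real, norm_smul, norm_smul, h1, h2, inner_smul_left, inner_smul_right, h12]
    simp
  refine ⟨?_, fun t => ?_, fun t => ?_, fun t => (hu2 t).deriv, fun t => ?_⟩
  · exact ((Real.contDiff_cos.comp (contDiff_id.div_const m)).smul contDiff_const).add
      ((Real.contDiff_sin.comp (contDiff_id.div_const m)).smul contDiff_const)
  · have h3 : ‖u t‖ ^ 2 = 1 := by
      rw [show u t = Real.cos (t / m) • e₁ + Real.sin (t / m) • e₂ from rfl, nsq,
        Real.cos_sq_add_sin_sq]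
    have h0 := norm_nonneg (u t)
    nlinarith
  · rw [hdu]
    simp only
    rw [norm_smul, mul_pow, nsq, Real.norm_eq_abs, sq_abs, neg_sq, Real.sin_sq_add_cos_sq, mul_one]
    field_simp
  · have h4 : (t + 2 * π * m) / m = t / m + 2 * π := by field_simp
    simp only [u, h4, Real.cos_add_two_pi, Real.sin_add_two_pi]

/-- Sharp bound for `SO(3)`-invariant metrics. -/
theorem short_W {L : ℝ} {f : ℝ → ℝ} (hf : IsWarp L f) :
    ∃ (γ : ℝ → EuclideanSpace ℝ (Fin 3) × ℂ) (T : ℝ), 0 < T ∧ IsGeodesicW L f 1 γ ∧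
      (∀ t, γ (t + T) = γ t) ∧ T ^ 3 ≤ π * (4 * π * ∫ r in (0 : ℝ)..L, f r ^ 2) := by
  have hfc : Continuous f := hf.smooth.continuous
  have hL := hf.pos
  have hpi := Real.pi_pos
  have hper : Function.Periodic f L := hf.per
  obtain ⟨r₀, -, hmin⟩ := (isCompact_Icc (a := (0 : ℝ)) (b := L)).exists_isMinOn
    (nonempty_Icc.2 hL.le) hfc.continuousOn
  have hmin' : ∀ r, f r₀ ≤ f r := by
    intro r
    obtain ⟨s, hs, he⟩ := hper.exists_mem_Ico₀ hL r
    rw [he]
    exact hmin ⟨hs.1, hs.2.le⟩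
  have hd0 : deriv f r₀ = 0 := IsLocalMin.deriv_eq_zero (Filter.Eventually.of_forall hmin')
  set m := f r₀ with hm
  have hm0 : 0 < m := hf.fpos r₀
  have hI : L * m ^ 2 ≤ ∫ r in (0 : ℝ)..L, f r ^ 2 := by
    have h1 : ∫ r in (0 : ℝ)..L, m ^ 2 ≤ ∫ r in (0 : ℝ)..L, f r ^ 2 := by
      refine intervalIntegral.integral_mono_on hL.le (continuous_const.intervalIntegrable _ _)
        ((hfc.pow 2).intervalIntegrable _ _) (fun r _ => ?_)
      exact pow_le_pow_left₀ hm0.le (hmin' r) 2
    rw [intervalIntegral.integral_const, smul_eq_mul, sub_zero] at h1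
    exact h1
  rcases le_total L (2 * π * m) with hc | hc
  · refine ⟨fun t => (EuclideanSpace.single 0 1, Complex.exp ((2 * π * t / L : ℝ) * Complex.I)), L,
      hL, ⟨fun t => t, fun _ => EuclideanSpace.single 0 1, contDiff_id, contDiff_const,
        fun _ => e0norm 0, fun _ => rfl, fun t => ?_, fun t => ?_, fun t => ?_⟩, fun t => ?_, ?_⟩
    · have hd' : deriv (fun t : ℝ => t) = fun _ => 1 := funext fun t => (hasDerivAt_id t).deriv
      rw [hd']
      simp
    · simp
    · have hd' : deriv (fun t : ℝ => t) = fun _ => 1 := funext fun t => (hasDerivAt_id t).deriv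
      rw [hd']
      simp
    · have h1 : ((2 * π * (t + L) / L : ℝ) : ℂ) * Complex.I =
          ((2 * π * t / L : ℝ) : ℂ) * Complex.I + 2 * π * Complex.I := by
        have h2 : 2 * π * (t + L) / L = 2 * π * t / L + 2 * π := by field_simp
        rw [h2]
        push_cast
        ring
      simp only [h1, Complex.exp_add, Complex.exp_two_pi_mul_I, mul_one]
    · have h1 : L ^ 2 ≤ (2 * π * m) ^ 2 := pow_le_pow_left₀ hL.le hc 2
      calc L ^ 3 = L * L ^ 2 := by ring
        _ ≤ L * (2 * π * m) ^ 2 := mul_le_mul_of_nonneg_left h1 hL.le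
        _ = 4 * π ^ 2 * (L * m ^ 2) := by ring
        _ ≤ 4 * π ^ 2 * ∫ r in (0 : ℝ)..L, f r ^ 2 := by gcongr
        _ = _ := by ring
  · obtain ⟨c1, c2, c3, c4, c5⟩ := circ (E := EuclideanSpace ℝ (Fin 3)) (e0norm 0) (e0norm 1)
      (by simp [EuclideanSpace.inner_single_left]) hm0
    refine ⟨fun t => (Real.cos (t / m) • EuclideanSpace.single 0 1 +
        Real.sin (t / m) • EuclideanSpace.single 1 1,
        Complex.exp ((2 * π * r₀ / L : ℝ) * Complex.I)), 2 * π * m,
      by positivity, ⟨fun _ => r₀, _, contDiff_const, c1, c2, fun _ => rfl, fun t => ?_,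
        fun t => ?_, fun t => ?_⟩, fun t => ?_, ?_⟩
    · simp [hd0]
    · rw [c3, c4, hd0]
      simp only [mul_zero, zero_mul, zero_smul, add_zero]
      module
    · rw [c3]
      simp only [deriv_const, ← hm]
      field_simp
      norm_num
    · simp only [Prod.mk.injEq, and_true]
      exact c5 t
    · calc (2 * π * m) ^ 3 = (2 * π * m) * (2 * π * m) ^ 2 := by ring
        _ ≤ L * (2 * π * m) ^ 2 := mul_le_mul_of_nonneg_right hc (by positivity)
        _ = 4 * π ^ 2 * (L * m ^ 2) := by ring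
        _ ≤ 4 * π ^ 2 * ∫ r in (0 : ℝ)..L, f r ^ 2 := by gcongr
        _ = _ := by ring

/-- Sharp bound for diagonal torus invariant metrics. -/
theorem short_D {L : ℝ} {f h : ℝ → ℝ} (hf : IsDiag L f h) :
    ∃ (γ : ℝ → (EuclideanSpace ℝ (Fin 2) × ℝ) × ℂ) (T : ℝ), 0 < T ∧ IsGeodesicD L f h 1 γ ∧
      (∀ t, γ (t + T) = γ t) ∧ T ^ 3 ≤ π * (4 * π ^ 2 * ∫ r in (0 : ℝ)..L, f r * h r) := by
  have hfc : Continuous f := hf.pf.smooth.continuous
  have hhc : Continuous h := hf.smooth.continuous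
  have hL := hf.pf.pos
  have hpi := Real.pi_pos
  obtain ⟨r₀, hr₀, hmin⟩ := (isCompact_Icc (a := (0 : ℝ)) (b := L)).exists_isMinOn
    (nonempty_Icc.2 hL.le) hhc.continuousOn
  have hf1 : ∀ x, HasDerivAt h (deriv h x) x := fun x =>
    (hf.smooth.differentiable (by norm_num)).differentiableAt.hasDerivAt
  have hd0 : deriv h r₀ = 0 := by
    rcases eq_or_lt_of_le hr₀.1 with h1 | h1
    · rw [← h1]
      have h2 : HasDerivAt (fun x => h (-x)) (deriv h (-0) * -1) (0 : ℝ) :=
        (hf1 (-0)).comp 0 (hasDerivAt_neg 0)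
      rw [show (fun x => h (-x)) = h from funext hf.even_zero, neg_zero] at h2
      have := h2.unique (hf1 0)
      linarith
    · rcases eq_or_lt_of_le hr₀.2 with h3 | h3
      · rw [h3]
        have h2 : HasDerivAt (fun x => h (L + x)) (deriv h (L + 0)) (0 : ℝ) :=
          (hf1 (L + 0)).comp_const_add L 0
        have h4 : HasDerivAt (fun x => h (L - x)) (-deriv h (L - 0)) (0 : ℝ) :=
          (hf1 (L - 0)).comp_const_sub L 0
        rw [show (fun x => h (L + x)) = fun x => h (L - x) from funext hf.even_L] at h2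
        have := h2.unique h4
        rw [add_zero, sub_zero] at this
        linarith
      · refine IsLocalMin.deriv_eq_zero ?_
        filter_upwards [isOpen_Ioo.mem_nhds (⟨h1, h3⟩ : r₀ ∈ Ioo 0 L)] with x hx
        exact hmin ⟨hx.1.le, hx.2.le⟩
  set m := h r₀ with hm
  have hm0 : 0 < m := hf.hpos r₀
  obtain ⟨γ₁, T₁, hT₁, hγ₁, hper₁, hle₁⟩ := Rot.Main.short_geodesic hf.pf (n := 2) le_rfl
  simp only [show 2 - 1 = 1 by norm_num, pow_one, integral_sin] at hle₁
  rw [Real.cos_zero, Real.cos_pi] at hle₁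
  have hI : m * (∫ r in (0 : ℝ)..L, f r) ≤ ∫ r in (0 : ℝ)..L, f r * h r := by
    rw [← intervalIntegral.integral_const_mul]
    refine intervalIntegral.integral_mono_on hL.le ((continuous_const.mul hfc).intervalIntegrable _ _)
      ((hfc.mul hhc).intervalIntegrable _ _) (fun r hr => ?_)
    have h1 : m ≤ h r := hmin hr
    have h2 : 0 ≤ f r := by
      rcases eq_or_lt_of_le hr.1 with h3 | h3
      · have := hf.pf.odd_zero 0
        rw [neg_zero] at this
        rw [← h3]
        linarith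
      · rcases eq_or_lt_of_le hr.2 with h4 | h4
        · have := hf.pf.odd_L 0
          rw [add_zero, sub_zero] at this
          rw [h4]
          linarith
        · exact (hf.pf.fpos r h3 h4).le
    rw [mul_comm m]
    exact mul_le_mul_of_nonneg_left h1 h2
  have hT1 : T₁ ^ 2 ≤ 2 * π ^ 2 * ∫ r in (0 : ℝ)..L, f r := by linarith
  have hkey : 2 * π * m * T₁ ^ 2 ≤ π * (4 * π ^ 2 * ∫ r in (0 : ℝ)..L, f r * h r) := by
    calc 2 * π * m * T₁ ^ 2 ≤ 2 * π * m * (2 * π ^ 2 * ∫ r in (0 : ℝ)..L, f r) :=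
          mul_le_mul_of_nonneg_left hT1 (by positivity)
      _ = 4 * π ^ 3 * (m * ∫ r in (0 : ℝ)..L, f r) := by ring
      _ ≤ 4 * π ^ 3 * ∫ r in (0 : ℝ)..L, f r * h r := by gcongr
      _ = _ := by ring
  rcases le_total T₁ (2 * π * m) with hc | hc
  · obtain ⟨r, u, hr, hu, hn, hγe, e1, e2, e3⟩ := hγ₁
    refine ⟨fun t => (γ₁ t, Complex.exp ((0 : ℝ) * Complex.I)), T₁, hT₁,
      ⟨r, u, fun _ => 0, hr, hu, contDiff_const, hn, fun t => by simp only [hγe], fun t => ?_, e2,
        fun t => by simp, fun t => ?_⟩, fun t => by simp only [hper₁], ?_⟩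
    · rw [e1]
      simp
    · rw [← e3 t]
      simp
    · calc T₁ ^ 3 = T₁ * T₁ ^ 2 := by ring
        _ ≤ 2 * π * m * T₁ ^ 2 := mul_le_mul_of_nonneg_right hc (by positivity)
        _ ≤ _ := hkey
  · have hdφ : ∀ t : ℝ, HasDerivAt (fun t : ℝ => t / m) (1 / m) t := fun t =>
      (hasDerivAt_id t).div_const m
    have hdφ' : deriv (fun t : ℝ => t / m) = fun _ => 1 / m := funext fun t => (hdφ t).deriv
    refine ⟨fun t => (Rot.polar L r₀ (EuclideanSpace.single 0 1),
        Complex.exp ((t / m : ℝ) * Complex.I)), 2 * π * m, by positivity,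
      ⟨fun _ => r₀, fun _ => EuclideanSpace.single 0 1, fun t => t / m, contDiff_const,
        contDiff_const, contDiff_id.div_const m, fun _ => e0norm 0, fun _ => rfl, fun t => ?_,
        fun t => ?_, fun t => ?_, fun t => ?_⟩, fun t => ?_, ?_⟩
    · rw [hd0]
      simp
    · simp
    · rw [hdφ', hd0]
      simp
    · rw [hdφ']
      simp only [deriv_const, ← hm, norm_zero]
      field_simp
      norm_num
    · have h1 : (((t + 2 * π * m) / m : ℝ) : ℂ) * Complex.I =
          ((t / m : ℝ) : ℂ) * Complex.I + 2 * π * Complex.I := by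
        have h2 : (t + 2 * π * m) / m = t / m + 2 * π := by field_simp
        rw [h2]
        push_cast
        ring
      simp only [h1, Complex.exp_add, Complex.exp_two_pi_mul_I, mul_one]
    · calc (2 * π * m) ^ 3 = 2 * π * m * (2 * π * m) ^ 2 := by ring
        _ ≤ 2 * π * m * T₁ ^ 2 :=
          mul_le_mul_of_nonneg_left (pow_le_pow_left₀ (by positivity) hc 2) (by positivity)
        _ ≤ _ := hkey

end H804SC
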