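import Pool.Agent.H804.SC.Low

/-!
# Left invariant metrics on `S³`
-/

open Real Set MeasureTheory Filter Topology Quaternion
open scoped ContDiff

namespace H804SC

/-- `γ` is a geodesic of speed `v` of the left invariant metric on the group `S³` of unit quaternions for
which the left invariant vector fields `q i`, `q j`, `q k` are orthogonal of length `a`, `b`, `c`:
`γ' = γ (x i + y j + z k)`, where `(x, y, z)` satisfies Euler's equations. -/
def IsGeodesicL (a b c v : ℝ) (γ : ℝ → ℍ[ℝ]) : Prop :=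
  ∃ x y z : ℝ → ℝ, (∀ t, ‖γ t‖ = 1) ∧
    (∀ t, HasDerivAt γ (γ t * ⟨0, x t, y t, z t⟩) t) ∧
    (∀ t, HasDerivAt x (2 * (b ^ 2 - c ^ 2) / a ^ 2 * (y t * z t)) t) ∧
    (∀ t, HasDerivAt y (2 * (c ^ 2 - a ^ 2) / b ^ 2 * (z t * x t)) t) ∧
    (∀ t, HasDerivAt z (2 * (a ^ 2 - b ^ 2) / c ^ 2 * (x t * y t)) t) ∧
    (∀ t, a ^ 2 * x t ^ 2 + b ^ 2 * y t ^ 2 + c ^ 2 * z t ^ 2 = v ^ 2)

/-- One-parameter subgroups. -/
theorem sub_geo {p : ℍ[ℝ]} (hp : ‖p‖ = 1) (hp2 : p * p = -1) (hp1 : inner ℝ (1 : ℍ[ℝ]) p = 0)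
    {m : ℝ} (hm : 0 < m) :
    let γ := fun t : ℝ => Real.cos (t / m) • (1 : ℍ[ℝ]) + Real.sin (t / m) • p
    (∀ t, ‖γ t‖ = 1) ∧ (∀ t, HasDerivAt γ (γ t * ((1 / m) • p)) t) ∧
      ∀ t, γ (t + 2 * π * m) = γ t := by
  intro γ
  obtain ⟨-, c2, -, -, c5⟩ := circ (E := ℍ[ℝ]) (norm_one) hp hp1 hm
  refine ⟨c2, fun t => ?_, c5⟩
  have hd : HasDerivAt (fun t : ℝ => t / m) (1 / m) t := (hasDerivAt_id t).div_const m
  have h1 := (hd.cos.smul_const (1 : ℍ[ℝ])).add (hd.sin.smul_const p)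
  refine h1.congr_deriv ?_
  simp only [γ, add_mul, smul_mul_assoc, mul_smul_comm, one_mul, hp2]
  module

theorem short_L {a b c : ℝ} (ha : 0 < a) (hb : 0 < b) (hc : 0 < c) :
    ∃ (γ : ℝ → ℍ[ℝ]) (T : ℝ), 0 < T ∧ IsGeodesicL a b c 1 γ ∧ (∀ t, γ (t + T) = γ t) ∧
      T ^ 3 ≤ 4 * π * (2 * π ^ 2 * (a * b * c)) := by
  have hpi := Real.pi_pos
  have nrm : ∀ p : ℍ[ℝ], Quaternion.normSq p = 1 → ‖p‖ = 1 := by
    intro p h
    have h1 := Quaternion.normSq_eq_norm_mul_self p
    rw [h] at h1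
    have h0 := norm_nonneg p
    nlinarith
  have fin : ∀ m : ℝ, 0 < m → m ≤ a → m ≤ b → m ≤ c →
      (2 * π * m) ^ 3 ≤ 4 * π * (2 * π ^ 2 * (a * b * c)) := by
    intro m hm h1 h2 h3
    have h4 : m * m * m ≤ a * b * c :=
      mul_le_mul (mul_le_mul h1 h2 hm.le ha.le) h3 hm.le (mul_pos ha hb).le
    calc (2 * π * m) ^ 3 = 8 * π ^ 3 * (m * m * m) := by ring
      _ ≤ 8 * π ^ 3 * (a * b * c) := mul_le_mul_of_nonneg_left h4 (by positivity)
      _ = _ := by ring
  rcases le_total a b with hab | hab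
  · rcases le_total a c with hac | hac
    · obtain ⟨g1, g2, g3⟩ := sub_geo (p := (⟨0, 1, 0, 0⟩ : ℍ[ℝ]))
        (nrm _ (by simp [Quaternion.normSq_def']))
        (by ext <;> simp) (by simp [Quaternion.inner_def]) ha
      refine ⟨_, 2 * π * a, by positivity, ⟨fun _ => 1 / a, fun _ => 0, fun _ => 0, g1,
        fun t => (g2 t).congr_deriv ?_, fun t => ?_, fun t => ?_, fun t => ?_, fun t => ?_⟩, g3,
        fin a ha le_rfl hab hac⟩
      · congr 1
        ext <;> simp
      · simpa using hasDerivAt_const t (1 / a)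
      · simpa using hasDerivAt_const t (0 : ℝ)
      · simpa using hasDerivAt_const t (0 : ℝ)
      · field_simp
        simp
    · obtain ⟨g1, g2, g3⟩ := sub_geo (p := (⟨0, 0, 0, 1⟩ : ℍ[ℝ]))
        (nrm _ (by simp [Quaternion.normSq_def']))
        (by ext <;> simp) (by simp [Quaternion.inner_def]) hc
      refine ⟨_, 2 * π * c, by positivity, ⟨fun _ => 0, fun _ => 0, fun _ => 1 / c, g1,
        fun t => (g2 t).congr_deriv ?_, fun t => ?_, fun t => ?_, fun t => ?_, fun t => ?_⟩, g3,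
        fin c hc hac (hac.trans hab) le_rfl⟩
      · congr 1
        ext <;> simp
      · simpa using hasDerivAt_const t (0 : ℝ)
      · simpa using hasDerivAt_const t (0 : ℝ)
      · simpa using hasDerivAt_const t (1 / c)
      · field_simp
        simp
  · rcases le_total b c with hbc | hbc
    · obtain ⟨g1, g2, g3⟩ := sub_geo (p := (⟨0, 0, 1, 0⟩ : ℍ[ℝ]))
        (nrm _ (by simp [Quaternion.normSq_def']))
        (by ext <;> simp) (by simp [Quaternion.inner_def]) hb
      refine ⟨_, 2 * π * b, by positivity, ⟨fun _ => 0, fun _ => 1 / b, fun _ => 0, g1,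
        fun t => (g2 t).congr_deriv ?_, fun t => ?_, fun t => ?_, fun t => ?_, fun t => ?_⟩, g3,
        fin b hb hab le_rfl hbc⟩
      · congr 1
        ext <;> simp
      · simpa using hasDerivAt_const t (0 : ℝ)
      · simpa using hasDerivAt_const t (1 / b)
      · simpa using hasDerivAt_const t (0 : ℝ)
      · field_simp
        simp
    · obtain ⟨g1, g2, g3⟩ := sub_geo (p := (⟨0, 0, 0, 1⟩ : ℍ[ℝ]))
        (nrm _ (by simp [Quaternion.normSq_def']))
        (by ext <;> simp) (by simp [Quaternion.inner_def]) hc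
      refine ⟨_, 2 * π * c, by positivity, ⟨fun _ => 0, fun _ => 0, fun _ => 1 / c, g1,
        fun t => (g2 t).congr_deriv ?_, fun t => ?_, fun t => ?_, fun t => ?_, fun t => ?_⟩, g3,
        fin c hc (hbc.trans hab) hbc le_rfl⟩
      · congr 1
        ext <;> simp
      · simpa using hasDerivAt_const t (0 : ℝ)
      · simpa using hasDerivAt_const t (0 : ℝ)
      · simpa using hasDerivAt_const t (1 / c)
      · field_simp
        simp

theorem low_L (γ : ℝ → ℍ[ℝ]) (T : ℝ) (hT : 0 < T) (hγ : IsGeodesicL 1 1 1 1 γ)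
    (hper : ∀ t, γ (t + T) = γ t) : 2 * π ≤ T := by
  obtain ⟨x, y, z, h1, h2, h3, h4, h5, h6⟩ := hγ
  simp only [one_pow, sub_self, mul_zero, zero_div, zero_mul, one_mul] at h3 h4 h5 h6
  by_contra hlt
  push Not at hlt
  have hx : ∀ t s, x t = x s := is_const_of_deriv_eq_zero
    (fun t => (h3 t).differentiableAt) (fun t => (h3 t).deriv)
  have hy : ∀ t s, y t = y s := is_const_of_deriv_eq_zero
    (fun t => (h4 t).differentiableAt) (fun t => (h4 t).deriv)
  have hz : ∀ t s, z t = z s := is_const_of_deriv_eq_zero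
    (fun t => (h5 t).differentiableAt) (fun t => (h5 t).deriv)
  set p : ℍ[ℝ] := ⟨0, x 0, y 0, z 0⟩ with hp
  have h2' : ∀ t, HasDerivAt γ (γ t * p) t := by
    intro t
    have := h2 t
    rwa [hx t 0, hy t 0, hz t 0] at this
  have hpp : p * p = -1 := by
    have := h6 0
    ext
    · simp [hp]
      nlinarith
    · simp [hp]
      ring
    · simp [hp]
      ring
    · simp [hp]
      ring
  have h7 : ∀ t, HasDerivAt (fun t => γ t * p) (-((1 : ℝ) ^ 2) • γ t) t := by
    intro t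
    refine ((h2' t).mul_const p).congr_deriv ?_
    rw [mul_assoc, hpp]
    simp
  have h0 := H804OP.Low.per (om := 1) one_pos hT (by linarith) h2' h7 hper 0
  have := h1 0
  rw [h0, norm_zero] at this
  norm_num at this

end H804SC
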